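import Pool.Agent.H65.Palin2

set_option autoImplicit false

namespace Pool.Agent.Results.MP_738270_al.SomeSet

/-- Every finitely generated group (solvable or not) has a finite generating set with respect to
which its palindromic width is finite. -/
theorem result (G : Type*) [Group G] [Group.FG G] :
    ∃ X : Finset G, Subgroup.closure (X : Set G) = ⊤ ∧
      ∃ N : ℕ, ∀ g : G, ∃ ps : List (List G), ps.length ≤ N ∧
        (∀ w ∈ ps, (∀ x ∈ w, x ∈ X ∨ x⁻¹ ∈ X) ∧ w.reverse = w) ∧
        (ps.map List.prod).prod = g := by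
  classical
  obtain ⟨S, hS⟩ := (Group.fg_def.1 ‹_› : (⊤ : Subgroup G).FG)
  refine ⟨S ∪ (S ×ˢ S).image fun p => p.1 * p.2, ?_, S.toList.length + 1, fun g => ?_⟩
  · rw [eq_top_iff, ← hS]
    exact Subgroup.closure_mono (by simp)
  · refine H65.Palin2.width (↑(S ∪ (S ×ˢ S).image fun p => p.1 * p.2)) S.toList (by simpa using hS)
      (fun x hx => by simp_all) (fun x hx y hy => ?_) g
    rw [Finset.mem_toList] at hx hy
    exact Finset.mem_coe.2 (Finset.mem_union_right _
      (Finset.mem_image.2 ⟨(x, y), Finset.mem_product.2 ⟨hx, hy⟩, rfl⟩))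

end Pool.Agent.Results.MP_738270_al.SomeSet
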